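import Pool.Agent.H66.SYM.Basic

/-!
# Symmetric powers and functoriality: limits of integral elements are integral (module AN3)
-/

namespace Pool.H66.SYM

open Filter Topology

/-! ## Bounded functions -/

theorem AN3_bd_zero {V : Type} : Bd (0 : V → ℂ) := ⟨0, by simp⟩

theorem AN3_bd_one {V : Type} : Bd (1 : V → ℂ) := ⟨1, by simp⟩

theorem AN3_bd_add {V : Type} {f g : V → ℂ} (hf : Bd f) (hg : Bd g) : Bd (f + g) := by
  obtain ⟨C, hC⟩ := hf
  obtain ⟨D, hD⟩ := hg
  exact ⟨C + D, fun v => (norm_add_le _ _).trans (add_le_add (hC v) (hD v))⟩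

theorem AN3_bd_mul {V : Type} {f g : V → ℂ} (hf : Bd f) (hg : Bd g) : Bd (f * g) := by
  obtain ⟨C, hC⟩ := hf
  obtain ⟨D, hD⟩ := hg
  refine ⟨|C| * |D|, fun v => ?_⟩
  rw [Pi.mul_apply, norm_mul]
  exact mul_le_mul ((hC v).trans (le_abs_self _)) ((hD v).trans (le_abs_self _))
    (norm_nonneg _) (abs_nonneg _)

theorem AN3_bd_smul {V : Type} (a : ℂ) {f : V → ℂ} (hf : Bd f) : Bd (fun v => a * f v) := by
  obtain ⟨C, hC⟩ := hf
  refine ⟨‖a‖ * C, fun v => ?_⟩
  rw [norm_mul]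
  exact mul_le_mul_of_nonneg_left (hC v) (norm_nonneg _)

theorem AN3_bd_cj {V : Type} {f : V → ℂ} (hf : Bd f) : Bd (cj f) := by
  obtain ⟨C, hC⟩ := hf
  exact ⟨C, fun v => by simpa [cj] using hC v⟩

theorem AN3_bd_uni {V : Type} {u : V → ℂ} (hu : Uni u) : Bd u := ⟨1, fun v => (hu v).le⟩

theorem AN3_uni_pow {V : Type} {u : V → ℂ} (hu : Uni u) (n : ℕ) : Uni (fun v => u v ^ n) :=
  fun v => by simp [hu v]

theorem AN3_uni_cj {V : Type} {u : V → ℂ} (hu : Uni u) : Uni (cj u) :=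
  fun v => by simp [cj, hu v]

theorem AN3_bd_sum {V : Type} {ι : Type} (s : Finset ι) (f : ι → V → ℂ) (hf : ∀ j, Bd (f j)) :
    Bd (∑ j ∈ s, f j) := by
  classical
  induction s using Finset.induction_on with
  | empty => simpa using AN3_bd_zero
  | insert i s hi ih => rw [Finset.sum_insert hi]; exact AN3_bd_add (hf i) ih

theorem AN3_cj_cj {V : Type} (f : V → ℂ) : cj (cj f) = f := by
  ext v
  simp [cj]

theorem AN3_cj_one {V : Type} : cj (1 : V → ℂ) = 1 := by
  ext v
  simp [cj]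

/-! ## Multiplication operators -/

section

variable {V : Type} {μ : Mean V} (R : Rep μ)

theorem AN3_T_zero : R.T 0 = 0 := by
  have h := R.T_add 0 0 AN3_bd_zero AN3_bd_zero
  rw [add_zero] at h
  exact left_eq_add.1 h

theorem AN3_T_sum {ι : Type} (s : Finset ι) (f : ι → V → ℂ) (hf : ∀ j, Bd (f j)) :
    R.T (∑ j ∈ s, f j) = ∑ j ∈ s, R.T (f j) := by
  classical
  induction s using Finset.induction_on with
  | empty => simp [AN3_T_zero]
  | insert i s hi ih =>
    rw [Finset.sum_insert hi, Finset.sum_insert hi, R.T_add _ _ (hf i) (AN3_bd_sum s f hf), ih]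

theorem AN3_T_comm {f g : V → ℂ} (hf : Bd f) (hg : Bd g) : R.T f * R.T g = R.T g * R.T f := by
  rw [← R.T_mul f g hf hg, ← R.T_mul g f hg hf, mul_comm]

/-- Operators which commute with the multiplication operators are determined by their value at
the constant function `1`. -/
theorem AN3_ext {S S' : R.H →L[ℂ] R.H} (h : ∀ f, Bd f → S * R.T f = R.T f * S)
    (h' : ∀ f, Bd f → S' * R.T f = R.T f * S') (he : S R.e = S' R.e) : S = S' := by
  have hf : (fun x => S x) = fun x => S' x := by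
    refine Continuous.ext_on R.dense S.continuous S'.continuous ?_
    rintro x ⟨f, hf, rfl⟩
    have h1 : S (R.T f R.e) = R.T f (S R.e) := by
      have := congrArg (fun A : R.H →L[ℂ] R.H => A R.e) (h f hf)
      simpa using this
    have h2 : S' (R.T f R.e) = R.T f (S' R.e) := by
      have := congrArg (fun A : R.H →L[ℂ] R.H => A R.e) (h' f hf)
      simpa using this
    change S (R.T f R.e) = S' (R.T f R.e)
    rw [h1, h2, he]
  ext x
  exact congrFun hf x

theorem AN3_norm_uni {u : V → ℂ} (hu : Uni u) : ‖R.T u R.e‖ = 1 := by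
  have h := R.inner_e u u (AN3_bd_uni hu) (AN3_bd_uni hu)
  have h1 : cj u * u = 1 := by
    ext v
    have h2 := Complex.mul_conj (u v)
    rw [Complex.normSq_eq_norm_sq, hu v] at h2
    simp only [Pi.mul_apply, cj, Pi.one_apply]
    rw [mul_comm, h2]
    simp
  rw [h1, μ.one, inner_self_eq_norm_sq_to_K] at h
  have h3 : ‖R.T u R.e‖ ^ 2 = 1 := by
    have h5 : (((‖R.T u R.e‖ ^ 2 : ℝ)) : ℂ) = ((1 : ℝ) : ℂ) := by
      push_cast
      exact h
    exact Complex.ofReal_injective h5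
  have h4 : 0 ≤ ‖R.T u R.e‖ := norm_nonneg _
  nlinarith

/-! ## Integral elements -/

variable {X : Type} (B : Basis' μ X)

theorem AN3_co_eq (k : X →₀ ℤ) :
    B.co k = ∑ x ∈ k.support, fun v => (k x : ℂ) * B.b x v := by
  ext v
  simp [Basis'.co, Finsupp.sum]

theorem AN3_bd_co (k : X →₀ ℤ) : Bd (B.co k) := by
  rw [AN3_co_eq]
  exact AN3_bd_sum _ _ fun x => AN3_bd_smul _ (B.bd x)

theorem AN3_T_co (k : X →₀ ℤ) :
    R.T (B.co k) = ∑ x ∈ k.support, (k x : ℂ) • R.T (B.b x) := by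
  rw [AN3_co_eq, AN3_T_sum R _ _ fun x => AN3_bd_smul _ (B.bd x)]
  exact Finset.sum_congr rfl fun x _ => R.T_smul _ _ (B.bd x)

open Classical in
theorem AN3_inner_b (x y : X) :
    inner ℂ (R.T (B.b x) R.e) (R.T (B.b y) R.e) = if x = y then (1 : ℂ) else 0 := by
  rw [R.inner_e _ _ (B.bd x) (B.bd y), mul_comm]
  split_ifs with h
  · subst h
    exact B.norm x
  · exact B.orth y x (Ne.symm h)

theorem AN3_inner_co (x : X) (k : X →₀ ℤ) :
    inner ℂ (R.T (B.b x) R.e) (R.T (B.co k) R.e) = (k x : ℂ) := by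
  classical
  rw [AN3_T_co]
  simp only [_root_.sum_apply, _root_.smul_apply, inner_sum,
    inner_smul_right, AN3_inner_b]
  simp only [mul_ite, mul_one, mul_zero, Finset.sum_ite_eq, Finsupp.mem_support_iff]
  split_ifs with h
  · rfl
  · rw [not_not] at h
    rw [h, Int.cast_zero]

theorem AN3_orthonormal : Orthonormal ℂ fun x => R.T (B.b x) R.e := by
  classical
  rw [orthonormal_iff_ite]
  intro x y
  exact AN3_inner_b R B x y

theorem AN3_bessel (k : X →₀ ℤ) (s : Finset X) :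
    ∑ x ∈ s, (k x : ℝ) ^ 2 ≤ ‖R.T (B.co k) R.e‖ ^ 2 := by
  have h := (AN3_orthonormal R B).sum_inner_products_le (R.T (B.co k) R.e) (s := s)
  refine le_trans (le_of_eq ?_) h
  refine Finset.sum_congr rfl fun x _ => ?_
  rw [AN3_inner_co]
  simp

end

/-! ## Limits -/

section

variable {V : Type} {μ : Mean V} (R : Rep μ) {p : Ultrafilter ℕ} (L : Lms R p)

theorem AN3_T_expand {ι : Type} [Fintype ι] (f u : ι → V → ℂ) (hf : ∀ j, Bd (f j))
    (hu : ∀ j, Uni (u j)) (n : ℕ) :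
    R.T (fun v => ∑ j, f j v * u j v ^ n) = ∑ j, R.T (f j) * R.T (fun v => u j v ^ n) := by
  have h1 : (fun v => ∑ j, f j v * u j v ^ n) = ∑ j, (f j * fun v => u j v ^ n) := by
    ext v
    simp
  have h2 : ∀ j, Bd (fun v => u j v ^ n) := fun j => AN3_bd_uni (AN3_uni_pow (hu j) n)
  rw [h1, AN3_T_sum R _ _ fun j => AN3_bd_mul (hf j) (h2 j)]
  exact Finset.sum_congr rfl fun j _ => R.T_mul _ _ (hf j) (h2 j)

theorem AN3_tends {ι : Type} [Fintype ι] (f u : ι → V → ℂ) (hf : ∀ j, Bd (f j))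
    (hu : ∀ j, Uni (u j)) (x y : R.H) :
    Tendsto (fun n : ℕ => inner ℂ x (R.T (fun v => ∑ j, f j v * u j v ^ n) y)) p
      (𝓝 (inner ℂ x ((∑ j, R.T (f j) * L.E (u j)) y))) := by
  simp only [AN3_T_expand R f u hf hu, _root_.sum_apply, inner_sum]
  refine tendsto_finsetSum _ fun j _ => ?_
  have h := L.tends (u j) (hu j) (R.T (cj (f j)) x) y
  have h1 : ∀ z : R.H, inner ℂ (R.T (cj (f j)) x) z = inner ℂ x (R.T (f j) z) := by
    intro z
    rw [R.T_adj _ (AN3_bd_cj (hf j)), AN3_cj_cj]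
  simp only [h1] at h
  exact h

/-- A bounded integer valued function is constant for almost all `n`. -/
theorem AN3_int_limit (p : Ultrafilter ℕ) (a : ℕ → ℤ) (C : ℤ) (h : ∀ᶠ n in p, |a n| ≤ C) :
    ∃ b : ℤ, ∀ᶠ n in p, a n = b := by
  have h1 : ∃ b ∈ Set.Icc (-C) C, {n | a n = b} ∈ p := by
    have h2 := (Ultrafilter.finite_biUnion_mem_iff (f := p) (Set.finite_Icc (-C) C)
      (s := fun b => {n | a n = b})).1 ?_
    · exact h2
    · refine Filter.mem_of_superset h ?_
      intro n hn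
      simp only [Set.mem_iUnion]
      exact ⟨a n, abs_le.1 hn, rfl⟩
  obtain ⟨b, _, hb⟩ := h1
  exact ⟨b, hb⟩

theorem AN3_comm_sum {ι : Type} [Fintype ι] (f u : ι → V → ℂ) (hf : ∀ j, Bd (f j))
    (hu : ∀ j, Uni (u j)) (g : V → ℂ) (hg : Bd g) :
    (∑ j, R.T (f j) * L.E (u j)) * R.T g = R.T g * ∑ j, R.T (f j) * L.E (u j) := by
  rw [Finset.sum_mul, Finset.mul_sum]
  refine Finset.sum_congr rfl fun j _ => ?_
  rw [mul_assoc, ← L.comm (u j) (hu j) g hg, ← mul_assoc, AN3_T_comm R (hf j) hg, mul_assoc]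

end

theorem s_AN3 : S_AN3 := by
  intro V μ R p hp L X B ι _ f u hf hu k hk
  classical
  -- the functions and their bound
  set h : ℕ → V → ℂ := fun n v => ∑ j, f j v * u j v ^ n with hh
  set C : ℝ := ∑ j, ‖R.T (f j)‖ with hC
  have hC0 : 0 ≤ C := Finset.sum_nonneg fun j _ => norm_nonneg _
  have hbound : ∀ n, ‖R.T (h n) R.e‖ ≤ C := by
    intro n
    rw [hh]
    simp only [AN3_T_expand R f u hf hu, _root_.sum_apply]
    refine (norm_sum_le _ _).trans (Finset.sum_le_sum fun j _ => ?_)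
    have h1 := AN3_norm_uni R (AN3_uni_pow (hu j) n)
    have h2 := (R.T (f j)).le_opNorm (R.T (fun v => u j v ^ n) R.e)
    rw [h1, mul_one] at h2
    exact h2
  have hk' : ∀ᶠ n in p, h n = B.co (k n) := by
    filter_upwards [hk] with n hn
    ext v
    exact hn v
  -- the square bound
  have hsq : ∀ᶠ n in p, ∀ s : Finset X, ∑ x ∈ s, ((k n) x : ℝ) ^ 2 ≤ C ^ 2 := by
    filter_upwards [hk'] with n hn s
    refine (AN3_bessel R B (k n) s).trans ?_
    rw [← hn]
    exact pow_le_pow_left₀ (norm_nonneg _) (hbound n) 2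
  -- the limits of the coefficients
  have hlim : ∀ x : X, ∃ b : ℤ, ∀ᶠ n in p, (k n) x = b := by
    intro x
    refine AN3_int_limit p (fun n => (k n) x) ⌈C⌉ ?_
    filter_upwards [hsq] with n hn
    have h1 := hn {x}
    rw [Finset.sum_singleton] at h1
    have h2 : |((k n) x : ℝ)| ≤ C := by
      rw [← abs_of_nonneg hC0]
      exact sq_le_sq.1 h1
    have h3 : ((|(k n) x| : ℤ) : ℝ) ≤ (⌈C⌉ : ℝ) := by
      rw [Int.cast_abs]
      exact h2.trans (Int.le_ceil C)
    exact_mod_cast h3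
  choose b hb using hlim
  have hbs : ∀ s : Finset X, ∑ x ∈ s, (b x : ℝ) ^ 2 ≤ C ^ 2 := by
    intro s
    have h1 : ∀ᶠ n in p, ∀ x ∈ s, (k n) x = b x :=
      (Filter.eventually_all_finset s).2 fun x _ => hb x
    obtain ⟨n, hn1, hn2⟩ := (h1.and hsq).exists
    refine le_trans (le_of_eq ?_) (hn2 s)
    exact Finset.sum_congr rfl fun x hx => by rw [hn1 x hx]
  have hfin : {x | b x ≠ 0}.Finite := by
    by_contra hinf
    obtain ⟨s, hs, hcard⟩ := Set.Infinite.exists_subset_card_eq hinf (⌈C ^ 2⌉₊ + 1)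
    have h1 : (s.card : ℝ) ≤ ∑ x ∈ s, (b x : ℝ) ^ 2 := by
      have h2 : ∑ _x ∈ s, (1 : ℝ) ≤ ∑ x ∈ s, (b x : ℝ) ^ 2 := by
        refine Finset.sum_le_sum fun x hx => ?_
        have h3 : b x ≠ 0 := hs hx
        have h4 : 1 ≤ b x ^ 2 := by
          have := sq_pos_of_ne_zero h3
          omega
        exact_mod_cast h4
      simpa using h2
    have h5 := hbs s
    rw [hcard] at h1
    push_cast at h1
    have h6 := Nat.le_ceil (C ^ 2)
    linarith
  set k' : X →₀ ℤ := Finsupp.ofSupportFinite b hfin with hk'def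
  have hk'b : ∀ x, k' x = b x := fun x => rfl
  refine ⟨k', ?_⟩
  set S := ∑ j, R.T (f j) * L.E (u j) with hS
  have htend : ∀ x y : R.H,
      Tendsto (fun n : ℕ => inner ℂ x (R.T (h n) y)) p (𝓝 (inner ℂ x (S y))) :=
    fun x y => AN3_tends R L f u hf hu x y
  -- the value at the constant function
  have h1 : ∀ x, inner ℂ (R.T (B.b x) R.e) (S R.e) = (k' x : ℂ) := by
    intro x
    refine tendsto_nhds_unique (htend (R.T (B.b x) R.e) R.e) ?_
    refine tendsto_const_nhds.congr' ?_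
    filter_upwards [hk', hb x] with n hn hn2
    rw [hn, AN3_inner_co, hn2, hk'b]
  set d := S R.e - R.T (B.co k') R.e with hd
  have h2 : ∀ x, inner ℂ d (R.T (B.b x) R.e) = (0 : ℂ) := by
    intro x
    rw [← inner_conj_symm, hd, inner_sub_right, h1 x, AN3_inner_co]
    simp
  have h3 : ∀ l : X →₀ ℤ, inner ℂ d (R.T (B.co l) R.e) = (0 : ℂ) := by
    intro l
    rw [AN3_T_co]
    simp only [_root_.sum_apply, _root_.smul_apply, inner_sum,
      inner_smul_right, h2, mul_zero, Finset.sum_const_zero]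
  have h4 : inner ℂ d (S R.e) = (0 : ℂ) := by
    refine tendsto_nhds_unique (htend d R.e) ?_
    refine tendsto_const_nhds.congr' ?_
    filter_upwards [hk'] with n hn
    rw [hn, h3]
  have h5 : d = 0 := by
    have h6 : inner ℂ d d = (0 : ℂ) := by
      conv_lhs => rw [hd]
      rw [← hd, inner_sub_right, h4, h3, sub_zero]
    exact inner_self_eq_zero.1 h6
  refine AN3_ext R (fun g hg => AN3_comm_sum R L f u hf hu g hg)
    (fun g hg => AN3_T_comm R (AN3_bd_co B k') hg) ?_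
  exact sub_eq_zero.1 h5

end Pool.H66.SYM
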