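import Pool.Agent.H66.SYM.Basic

/-!
# Symmetric powers and functoriality: tensor products (module TEN)
-/

namespace Pool.H66.SYM

open Filter Topology

/-- Multisets of nonzero complex numbers with the same power sums are equal. -/
theorem TEN_powsum (hVAN : S_VAN) (X Y : Multiset ℂ) (hX : (0 : ℂ) ∉ X) (hY : (0 : ℂ) ∉ Y)
    (h : ∀ n : ℕ, 1 ≤ n → (X.map fun a => a ^ n).sum = (Y.map fun a => a ^ n).sum) : X = Y := by
  classical
  set s : Finset ℂ := X.toFinset ∪ Y.toFinset with hs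
  set φ : ℂ →₀ ℂ := Finsupp.onFinset s (fun e => (X.count e : ℂ) - (Y.count e : ℂ)) (by
    intro e he
    rw [hs, Finset.mem_union, Multiset.mem_toFinset, Multiset.mem_toFinset]
    by_contra hcon
    push Not at hcon
    apply he
    rw [Multiset.count_eq_zero_of_notMem hcon.1, Multiset.count_eq_zero_of_notMem hcon.2]
    simp) with hφ
  have hφe : ∀ e, φ e = (X.count e : ℂ) - (Y.count e : ℂ) := fun e => rfl
  have hsum : ∀ Z : Multiset ℂ, Z.toFinset ⊆ s → ∀ n : ℕ,
      (Z.map fun a => a ^ n).sum = ∑ e ∈ s, (Z.count e : ℂ) * e ^ n := by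
    intro Z hZ n
    rw [Finset.sum_multiset_map_count]
    simp only [nsmul_eq_mul]
    refine Finset.sum_subset hZ fun e _ he => ?_
    rw [Multiset.count_eq_zero_of_notMem (fun h => he (Multiset.mem_toFinset.2 h))]
    simp
  have h0 : φ = 0 := by
    refine hVAN φ ?_ ?_
    · intro e he h0
      subst h0
      have := Finsupp.mem_support_iff.1 he
      rw [hφe, Multiset.count_eq_zero_of_notMem hX, Multiset.count_eq_zero_of_notMem hY] at this
      simp at this
    · intro n hn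
      have h1 : φ.sum (fun e k => k * e ^ n) = ∑ e ∈ s, φ e * e ^ n := by
        refine Finsupp.sum_of_support_subset _ (Finsupp.support_onFinset_subset) _ ?_
        intro i _
        simp
      rw [h1]
      simp only [hφe, sub_mul, Finset.sum_sub_distrib]
      rw [← hsum X Finset.subset_union_left n, ← hsum Y Finset.subset_union_right n, h n hn,
        sub_self]
  ext e
  have h1 : φ e = 0 := by rw [h0]; rfl
  rw [hφe, sub_eq_zero] at h1
  exact_mod_cast h1

/-- The exponent of a complex number with respect to the absolute value of a Frobenius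
element. -/
noncomputable def TEN_lg (A : AData) (v : A.Pl) (a : ℂ) : ℝ :=
  Real.logb (A.ab v (A.Fr v)) ‖a‖

theorem TEN_lg_mul (A : AData) (v : A.Pl) {a b : ℂ} (ha : a ≠ 0) (hb : b ≠ 0) :
    TEN_lg A v (a * b) = TEN_lg A v a + TEN_lg A v b := by
  unfold TEN_lg
  rw [norm_mul, Real.logb_mul (norm_ne_zero_iff.2 ha) (norm_ne_zero_iff.2 hb)]

theorem TEN_lg_bound (A : Aut) (hBAS : S_BAS) (σ : A.Cusp) (v : A.Pl) {a : ℂ}
    (ha : a ∈ A.eig σ (A.frob v)) :
    A.expo σ - 1 / 2 < TEN_lg A.toAData v a ∧ TEN_lg A.toAData v a < A.expo σ + 1 / 2 := by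
  obtain ⟨-, h0, -, -, -, -, -, -, -, -, -, h⟩ := hBAS A
  obtain ⟨h1, h2⟩ := h σ v a ha
  have hb0 := A.ab_pos v (A.Fr v)
  have hb1 := A.Fr_lt v
  have hane : a ≠ 0 := fun h => h0 σ (A.frob v) (h ▸ ha)
  have hapos : 0 < ‖a‖ := norm_pos_iff.2 hane
  constructor
  · have h3 := Real.logb_lt_logb_of_base_lt_one hb0 hb1 hapos h2
    rwa [Real.logb_rpow hb0 hb1.ne] at h3
  · have h3 := Real.logb_lt_logb_of_base_lt_one hb0 hb1 (Real.rpow_pos_of_pos hb0 _) h1
    rwa [Real.logb_rpow hb0 hb1.ne] at h3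

/-- A bound for the exponents. -/
theorem TEN_expo_bound (A : Aut) (P : Multiset A.Cusp) :
    ∃ E : ℝ, 0 ≤ E ∧ ∀ σ ∈ P, |A.expo σ| ≤ E := by
  induction P using Multiset.induction_on with
  | empty => exact ⟨0, le_refl _, by simp⟩
  | cons σ P ih =>
    obtain ⟨E, hE0, hE⟩ := ih
    refine ⟨max E |A.expo σ|, le_max_of_le_left hE0, ?_⟩
    intro w hw
    rcases Multiset.mem_cons.1 hw with rfl | h
    · exact le_max_right _ _
    · exact (hE w h).trans (le_max_left _ _)

/-- The twist of an isobaric representation by a power of the absolute value. -/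
noncomputable def TEN_tw (A : Aut) (S : ℝ) (P : Multiset A.Cusp) : Multiset A.Cusp :=
  P.map (A.mul (A.nrm S))

theorem TEN_tr_nrm (A : Aut) (hBAS : S_BAS) (S : ℝ) (p : A.Pt) :
    A.tr (A.nrm S) p = ((A.ab p.v p.g ^ S : ℝ) : ℂ) := by
  obtain ⟨-, -, -, -, -, -, -, h, -⟩ := hBAS A
  unfold AData.tr
  rw [h, Multiset.sum_singleton]

theorem TEN_eigs_tw (A : Aut) (hBAS : S_BAS) (S : ℝ) (P : Multiset A.Cusp) (p : A.Pt) :
    A.eigs (TEN_tw A S P) p = (A.eigs P p).map fun a => ((A.ab p.v p.g ^ S : ℝ) : ℂ) * a := by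
  have hB := hBAS A
  obtain ⟨-, -, -, -, -, h, -⟩ := hB
  induction P using Multiset.induction_on with
  | empty => simp [TEN_tw, eigs_zero]
  | cons σ P ih =>
    have h1 : TEN_tw A S (σ ::ₘ P) = A.mul (A.nrm S) σ ::ₘ TEN_tw A S P := by
      simp [TEN_tw]
    rw [h1, eigs_cons, eigs_cons, ih, Multiset.map_add, h _ _ _ (A.deg_nrm S),
      TEN_tr_nrm A hBAS]

theorem TEN_sum_tw (A : Aut) (hBAS : S_BAS) (S : ℝ) (P : Multiset A.Cusp) (p : A.Pt) :
    (A.eigs (TEN_tw A S P) p).sum = ((A.ab p.v p.g ^ S : ℝ) : ℂ) * (A.eigs P p).sum := by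
  rw [TEN_eigs_tw A hBAS, Multiset.sum_map_mul_left, Multiset.map_id']

theorem TEN_ne (A : Aut) (hBAS : S_BAS) (P : Multiset A.Cusp) (p : A.Pt) :
    (0 : ℂ) ∉ A.eigs P p := by
  obtain ⟨-, h0, -⟩ := hBAS A
  rw [mem_eigs]
  rintro ⟨σ, _, h⟩
  exact h0 σ p h

theorem TEN_pow (A : Aut) (hBAS : S_BAS) (P : Multiset A.Cusp) (p : A.Pt) (k : ℤ) :
    A.eigs P (p.pow k) = (A.eigs P p).map fun a => a ^ k := by
  obtain ⟨-, -, h, -⟩ := hBAS A
  induction P using Multiset.induction_on with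
  | empty => simp [eigs_zero]
  | cons σ P ih => rw [eigs_cons, eigs_cons, ih, h, Multiset.map_add]

theorem TEN_hs2 (hHSB : S_HSB) (X Y : Multiset ℂ) :
    hs 2 (X + Y) = hs 2 X + X.sum * Y.sum + hs 2 Y := by
  obtain ⟨h0, -, h1, -, h⟩ := hHSB
  rw [h 2 X Y, Finset.sum_range_succ, Finset.sum_range_succ, Finset.sum_range_succ,
    Finset.sum_range_zero, h0]
  simp only [zero_add, Nat.sub_zero, Nat.sub_self, one_mul, h0, mul_one]
  rw [h1, h1]
  ring

theorem TEN_filter_eigs (A : Aut) (P : Multiset A.Cusp) (p : A.Pt) (r : A.Cusp → Prop)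
    [DecidablePred r] (s : ℂ → Prop) [DecidablePred s]
    (h : ∀ w ∈ P, ∀ a ∈ A.eig w p, (s a ↔ r w)) :
    (A.eigs P p).filter s = A.eigs (P.filter r) p := by
  induction P using Multiset.induction_on with
  | empty => simp [eigs_zero]
  | cons σ P ih =>
    rw [eigs_cons, Multiset.filter_add, ih fun w hw => h w (Multiset.mem_cons_of_mem hw)]
    by_cases hr : r σ
    · rw [Multiset.filter_cons_of_pos _ hr, eigs_cons]
      congr 1
      rw [Multiset.filter_eq_self]
      exact fun a ha => (h σ (Multiset.mem_cons_self _ _) a ha).2 hr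
    · rw [Multiset.filter_cons_of_neg _ hr]
      have : (A.eig σ p).filter s = 0 := by
        rw [Multiset.filter_eq_nil]
        exact fun a ha hs => hr ((h σ (Multiset.mem_cons_self _ _) a ha).1 hs)
      rw [this, zero_add]

/-- The pure multiset statement: the eigenvalues of the symmetric square of a sum. -/
theorem TEN_split (hVAN : S_VAN) (hSYM : S_SYM) (hHSB : S_HSB) (A : Aut) (v : A.Pl)
    (X Y Z : Multiset ℂ) (hX0 : (0 : ℂ) ∉ X) (hY0 : (0 : ℂ) ∉ Y) (hZ0 : (0 : ℂ) ∉ Z)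
    (hZ : ∀ n : ℕ, 1 ≤ n → (Z.map fun a => a ^ n).sum =
      hs 2 (X.map (fun a => a ^ n) + Y.map fun a => a ^ n))
    (E S : ℝ) (hX : ∀ a ∈ X, |TEN_lg A.toAData v a| < E)
    (hY : ∀ a ∈ Y, |TEN_lg A.toAData v a - S| < E) :
    ∃ Z₁ Z₂ Z₃ : Multiset ℂ, Z = Z₁ + Z₂ + Z₃ ∧
      (∀ n : ℕ, 1 ≤ n → (Z₁.map fun a => a ^ n).sum = hs 2 (X.map fun a => a ^ n)) ∧
      (∀ n : ℕ, 1 ≤ n → (Z₃.map fun a => a ^ n).sum = hs 2 (Y.map fun a => a ^ n)) ∧
      (∀ a ∈ Z₁, |TEN_lg A.toAData v a| < 2 * E) ∧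
      (∀ a ∈ Z₂, |TEN_lg A.toAData v a - S| < 2 * E) ∧
      (∀ a ∈ Z₃, |TEN_lg A.toAData v a - 2 * S| < 2 * E) := by
  obtain ⟨Z₁, -, h1, h1'⟩ := hSYM 2 X hX0
  obtain ⟨Z₃, -, h3, h3'⟩ := hSYM 2 Y hY0
  set Z₂ : Multiset ℂ := (X ×ˢ Y).map fun c => c.1 * c.2 with hZ₂
  have hneX : ∀ a ∈ X, a ≠ 0 := fun a ha h => hX0 (h ▸ ha)
  have hneY : ∀ a ∈ Y, a ≠ 0 := fun a ha h => hY0 (h ▸ ha)
  have h1n : ∀ n : ℕ, 1 ≤ n → (Z₁.map fun a => a ^ n).sum = hs 2 (X.map fun a => a ^ n) := by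
    intro n _
    have := h1 n
    simpa using this
  have h3n : ∀ n : ℕ, 1 ≤ n → (Z₃.map fun a => a ^ n).sum = hs 2 (Y.map fun a => a ^ n) := by
    intro n _
    have := h3 n
    simpa using this
  have h2n : ∀ n : ℕ, (Z₂.map fun a => a ^ n).sum =
      (X.map fun a => a ^ n).sum * (Y.map fun a => a ^ n).sum := by
    intro n
    rw [hZ₂, Multiset.map_map]
    have hgen : ∀ W : Multiset ℂ, (((W ×ˢ Y).map ((fun a => a ^ n) ∘ fun c : ℂ × ℂ => c.1 * c.2))).sum =
        (W.map fun a => a ^ n).sum * (Y.map fun a => a ^ n).sum := by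
      intro W
      induction W using Multiset.induction_on with
      | empty => simp
      | cons a W ih =>
        rw [Multiset.cons_product, Multiset.map_add, Multiset.sum_add, ih, Multiset.map_cons,
          Multiset.sum_cons, add_mul, Multiset.map_map]
        congr 1
        have : (((fun a => a ^ n) ∘ fun c : ℂ × ℂ => c.1 * c.2) ∘ Prod.mk a) =
            fun b => a ^ n * b ^ n := by
          ext b
          simp [mul_pow]
        rw [this, Multiset.sum_map_mul_left]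
    exact hgen X
  have hne1 : (0 : ℂ) ∉ Z₁ := by
    intro h
    obtain ⟨W, _, hW, hW2⟩ := h1' 0 h
    have := Multiset.prod_eq_zero_iff.1 hW2.symm
    exact hX0 (hW 0 this)
  have hne3 : (0 : ℂ) ∉ Z₃ := by
    intro h
    obtain ⟨W, _, hW, hW2⟩ := h3' 0 h
    have := Multiset.prod_eq_zero_iff.1 hW2.symm
    exact hY0 (hW 0 this)
  have hne2 : (0 : ℂ) ∉ Z₂ := by
    intro h
    rw [hZ₂, Multiset.mem_map] at h
    obtain ⟨⟨a, b⟩, hab, h0⟩ := h
    rw [Multiset.mem_product] at hab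
    rcases mul_eq_zero.1 h0 with h | h
    · exact hneX a hab.1 h
    · exact hneY b hab.2 h
  refine ⟨Z₁, Z₂, Z₃, ?_, h1n, h3n, ?_, ?_, ?_⟩
  · refine TEN_powsum hVAN _ _ hZ0 ?_ ?_
    · simp [hne1, hne2, hne3]
    · intro n hn
      rw [hZ n hn, TEN_hs2 hHSB, Multiset.map_add, Multiset.map_add, Multiset.sum_add,
        Multiset.sum_add, h1n n hn, h3n n hn, h2n n]
  · intro a ha
    obtain ⟨W, hc, hW, rfl⟩ := h1' a ha
    obtain ⟨x, y, rfl⟩ := Multiset.card_eq_two.1 hc
    have hx : x ∈ X := hW x (by simp)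
    have hy : y ∈ X := hW y (by simp)
    rw [Multiset.prod_pair, TEN_lg_mul _ _ (hneX x hx) (hneX y hy)]
    have h1 := abs_lt.1 (hX x hx)
    have h2 := abs_lt.1 (hX y hy)
    rw [abs_lt]
    constructor <;> linarith [h1.1, h1.2, h2.1, h2.2]
  · intro a ha
    rw [hZ₂, Multiset.mem_map] at ha
    obtain ⟨⟨x, y⟩, hab, rfl⟩ := ha
    rw [Multiset.mem_product] at hab
    rw [TEN_lg_mul _ _ (hneX x hab.1) (hneY y hab.2)]
    have h1 := abs_lt.1 (hX x hab.1)
    have h2 := abs_lt.1 (hY y hab.2)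
    rw [abs_lt]
    constructor <;> linarith [h1.1, h1.2, h2.1, h2.2]
  · intro a ha
    obtain ⟨W, hc, hW, rfl⟩ := h3' a ha
    obtain ⟨x, y, rfl⟩ := Multiset.card_eq_two.1 hc
    have hx : x ∈ Y := hW x (by simp)
    have hy : y ∈ Y := hW y (by simp)
    rw [Multiset.prod_pair, TEN_lg_mul _ _ (hneY x hx) (hneY y hy)]
    have h1 := abs_lt.1 (hY x hx)
    have h2 := abs_lt.1 (hY y hy)
    rw [abs_lt]
    constructor <;> linarith [h1.1, h1.2, h2.1, h2.2]

theorem s_TEN (hHSB : S_HSB) (hSYM : S_SYM) (hVAN : S_VAN) (hBAS : S_BAS) (hEXP : S_EXP)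
    (hIND : S_IND) : S_TEN := by
  intro A hA P Q
  classical
  obtain ⟨-, -, hEx, -⟩ := hEXP A
  obtain ⟨hI, -⟩ := hIND A
  obtain ⟨hcard, -⟩ := hBAS A
  -- exponents
  obtain ⟨E₀, hE₀, hE⟩ := TEN_expo_bound A (P + Q)
  set E : ℝ := E₀ + 1 / 2 with hEdef
  set S : ℝ := 8 * E + 8 with hS
  have hEpos : 0 < E := by rw [hEdef]; linarith
  set Q' := TEN_tw A S Q with hQ'
  obtain ⟨U, hU⟩ := hA (P + Q')
  obtain ⟨U₁, hU₁⟩ := hA P
  obtain ⟨U₃, hU₃⟩ := hA Q'
  -- bounds for the eigenvalues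
  have hX : ∀ v, ∀ a ∈ A.eigs P (A.frob v), |TEN_lg A.toAData v a| < E := by
    intro v a ha
    obtain ⟨σ, hσ, ha⟩ := (mem_eigs A.toAData).1 ha
    have h1 := abs_le.1 (hE σ (Multiset.mem_add.2 (Or.inl hσ)))
    have h2 := TEN_lg_bound A hBAS σ v ha
    rw [abs_lt]
    constructor <;> linarith [h1.1, h1.2, h2.1, h2.2]
  have hY : ∀ v, ∀ a ∈ A.eigs Q' (A.frob v), |TEN_lg A.toAData v a - S| < E := by
    intro v a ha
    obtain ⟨σ, hσ, ha⟩ := (mem_eigs A.toAData).1 ha
    rw [hQ', TEN_tw, Multiset.mem_map] at hσ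
    obtain ⟨σ', hσ', rfl⟩ := hσ
    have h1 := abs_le.1 (hE σ' (Multiset.mem_add.2 (Or.inr hσ')))
    have h2 := TEN_lg_bound A hBAS _ v ha
    rw [hEx] at h2
    rw [abs_lt]
    constructor <;> linarith [h1.1, h1.2, h2.1, h2.2]
  -- the eigenvalues of `U` at the Frobenius elements
  have hsp : ∀ v, ∃ Z₁ Z₂ Z₃ : Multiset ℂ, A.eigs U (A.frob v) = Z₁ + Z₂ + Z₃ ∧
      (∀ n : ℕ, 1 ≤ n → (Z₁.map fun a => a ^ n).sum =
        hs 2 ((A.eigs P (A.frob v)).map fun a => a ^ n)) ∧
      (∀ n : ℕ, 1 ≤ n → (Z₃.map fun a => a ^ n).sum =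
        hs 2 ((A.eigs Q' (A.frob v)).map fun a => a ^ n)) ∧
      (∀ a ∈ Z₁, |TEN_lg A.toAData v a| < 2 * E) ∧
      (∀ a ∈ Z₂, |TEN_lg A.toAData v a - S| < 2 * E) ∧
      (∀ a ∈ Z₃, |TEN_lg A.toAData v a - 2 * S| < 2 * E) := by
    intro v
    refine TEN_split hVAN hSYM hHSB A v _ _ _ (TEN_ne A hBAS P _) (TEN_ne A hBAS Q' _)
      (TEN_ne A hBAS U _) ?_ E S (hX v) (hY v)
    intro n _
    have h1 := hU ((A.frob v).pow n)
    rw [TEN_pow A hBAS, eigs_add, TEN_pow A hBAS, TEN_pow A hBAS] at h1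
    simpa using h1
  -- the exponents of the constituents of `U`
  have hexp : ∀ w ∈ U, |A.expo w| < 2 * E + 1 / 2 ∨ |A.expo w - S| < 2 * E + 1 / 2 ∨
      |A.expo w - 2 * S| < 2 * E + 1 / 2 := by
    intro w hw
    obtain ⟨Z₁, Z₂, Z₃, h, -, -, h1, h2, h3⟩ := hsp A.inf
    have hpos : 0 < (A.eig w (A.frob A.inf)).card := by
      rw [hcard]
      exact A.deg_pos w
    obtain ⟨a, ha⟩ := Multiset.card_pos_iff_exists_mem.1 hpos
    have hb := TEN_lg_bound A hBAS w A.inf ha
    have ha' : a ∈ A.eigs U (A.frob A.inf) := (mem_eigs A.toAData).2 ⟨w, hw, ha⟩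
    rw [h, Multiset.mem_add, Multiset.mem_add] at ha'
    rcases ha' with (ha' | ha') | ha'
    · left
      have := abs_lt.1 (h1 a ha')
      rw [abs_lt]
      constructor <;> linarith [this.1, this.2, hb.1, hb.2]
    · right; left
      have := abs_lt.1 (h2 a ha')
      rw [abs_lt]
      constructor <;> linarith [this.1, this.2, hb.1, hb.2]
    · right; right
      have := abs_lt.1 (h3 a ha')
      rw [abs_lt]
      constructor <;> linarith [this.1, this.2, hb.1, hb.2]
  -- the outer parts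
  have hfil₁ : U.filter (fun w => A.expo w < S / 2) = U₁ := by
    refine hI _ _ fun v n hn => ?_
    obtain ⟨Z₁, Z₂, Z₃, h, hz1, hz3, h1, h2, h3⟩ := hsp v
    have h4 : (A.eigs U (A.frob v)).filter (fun a => TEN_lg A.toAData v a < S / 2) =
        A.eigs (U.filter fun w => A.expo w < S / 2) (A.frob v) := by
      refine TEN_filter_eigs A U (A.frob v) _ _ fun w hw a ha => ?_
      have hb := TEN_lg_bound A hBAS w v ha
      rcases hexp w hw with h5 | h5 | h5 <;> rw [abs_lt] at h5 <;> constructor <;> intro h6 <;>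
        linarith [h5.1, h5.2, hb.1, hb.2]
    have h5 : (A.eigs U (A.frob v)).filter (fun a => TEN_lg A.toAData v a < S / 2) = Z₁ := by
      rw [h, Multiset.filter_add, Multiset.filter_add]
      have e1 : Z₁.filter (fun a => TEN_lg A.toAData v a < S / 2) = Z₁ := by
        rw [Multiset.filter_eq_self]
        intro a ha
        have := abs_lt.1 (h1 a ha)
        linarith [this.2]
      have e2 : Z₂.filter (fun a => TEN_lg A.toAData v a < S / 2) = 0 := by
        rw [Multiset.filter_eq_nil]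
        intro a ha h6
        have := abs_lt.1 (h2 a ha)
        linarith [this.1]
      have e3 : Z₃.filter (fun a => TEN_lg A.toAData v a < S / 2) = 0 := by
        rw [Multiset.filter_eq_nil]
        intro a ha h6
        have := abs_lt.1 (h3 a ha)
        linarith [this.1]
      rw [e1, e2, e3, add_zero, add_zero]
    rw [TEN_pow A hBAS, ← h4, h5]
    simp only [zpow_natCast]
    rw [hz1 n hn, hU₁, TEN_pow A hBAS]
    simp only [zpow_natCast]
  have hfil₃ : U.filter (fun w => ¬ A.expo w < 3 * S / 2) = U₃ := by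
    refine hI _ _ fun v n hn => ?_
    obtain ⟨Z₁, Z₂, Z₃, h, hz1, hz3, h1, h2, h3⟩ := hsp v
    have h4 : (A.eigs U (A.frob v)).filter (fun a => ¬ TEN_lg A.toAData v a < 3 * S / 2) =
        A.eigs (U.filter fun w => ¬ A.expo w < 3 * S / 2) (A.frob v) := by
      refine TEN_filter_eigs A U (A.frob v) _ _ fun w hw a ha => ?_
      have hb := TEN_lg_bound A hBAS w v ha
      rw [not_lt, not_lt]
      rcases hexp w hw with h5 | h5 | h5 <;> rw [abs_lt] at h5 <;> constructor <;> intro h6 <;>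
        linarith [h5.1, h5.2, hb.1, hb.2]
    have h5 : (A.eigs U (A.frob v)).filter (fun a => ¬ TEN_lg A.toAData v a < 3 * S / 2) =
        Z₃ := by
      rw [h, Multiset.filter_add, Multiset.filter_add]
      have e1 : Z₁.filter (fun a => ¬ TEN_lg A.toAData v a < 3 * S / 2) = 0 := by
        rw [Multiset.filter_eq_nil]
        intro a ha h6
        have := abs_lt.1 (h1 a ha)
        exact h6 (by linarith [this.2])
      have e2 : Z₂.filter (fun a => ¬ TEN_lg A.toAData v a < 3 * S / 2) = 0 := by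
        rw [Multiset.filter_eq_nil]
        intro a ha h6
        have := abs_lt.1 (h2 a ha)
        exact h6 (by linarith [this.2])
      have e3 : Z₃.filter (fun a => ¬ TEN_lg A.toAData v a < 3 * S / 2) = Z₃ := by
        rw [Multiset.filter_eq_self]
        intro a ha
        have := abs_lt.1 (h3 a ha)
        rw [not_lt]
        linarith [this.1]
      rw [e1, e2, e3, zero_add, zero_add]
    rw [TEN_pow A hBAS, ← h4, h5]
    simp only [zpow_natCast]
    rw [hz3 n hn, hU₃, TEN_pow A hBAS]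
    simp only [zpow_natCast]
  -- the middle part
  set V := (U.filter fun w => ¬ A.expo w < S / 2).filter fun w => A.expo w < 3 * S / 2 with hV
  have hdec : U = U₁ + V + U₃ := by
    have e1 := Multiset.filter_add_not (fun w => A.expo w < S / 2) U
    have e2 := Multiset.filter_add_not (fun w => A.expo w < 3 * S / 2)
      (U.filter fun w => ¬ A.expo w < S / 2)
    have e3 : (U.filter fun w => ¬ A.expo w < S / 2).filter (fun w => ¬ A.expo w < 3 * S / 2) =
        U.filter (fun w => ¬ A.expo w < 3 * S / 2) := by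
      rw [Multiset.filter_filter]
      refine Multiset.filter_congr fun w _ => ?_
      constructor
      · exact fun h => h.1
      · intro h
        refine ⟨h, ?_⟩
        rw [not_lt] at h ⊢
        linarith
    rw [e3, hfil₃] at e2
    rw [hfil₁] at e1
    rw [← e1, ← e2, add_assoc]
  refine ⟨TEN_tw A (-S) V, fun p => ?_⟩
  rw [TEN_sum_tw A hBAS]
  have h1 := hU p
  rw [eigs_add, TEN_hs2 hHSB] at h1
  have h2 : (A.eigs U p).sum = (A.eigs U₁ p).sum + (A.eigs V p).sum + (A.eigs U₃ p).sum := by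
    conv_lhs => rw [hdec]
    rw [eigs_add, eigs_add, Multiset.sum_add, Multiset.sum_add]
  rw [h2, hU₁, hU₃] at h1
  have h3 : (A.eigs V p).sum = (A.eigs P p).sum * (A.eigs Q' p).sum := by
    linear_combination h1
  rw [h3, hQ', TEN_sum_tw A hBAS]
  have h4 : ((A.ab p.v p.g ^ (-S) : ℝ) : ℂ) * ((A.ab p.v p.g ^ S : ℝ) : ℂ) = 1 := by
    rw [← Complex.ofReal_mul, ← Real.rpow_add (A.ab_pos _ _)]
    simp
  linear_combination (A.eigs P p).sum * (A.eigs Q p).sum * h4

end Pool.H66.SYM
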